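import Pool.Agent.Helper97_WHC.Stmt

/-!
# Squad WHC, row CMP: the matrices of the Hecke operators multiply
-/

set_option autoImplicit false

open scoped BigOperators

namespace Pool.Agent.WHC.H62

open Pool.Agent.DEN Pool.Agent.TMP Pool.Agent.WHT Pool.Agent.WHC
open Pool.Agent.WHT.H97 (TT TT_comp)

section
variable {r : ℕ} {C : Matrix (Fin r) (Fin r) ℤ} {K : Type} [Field K]

theorem chi_one {N : Polynomial K} {χ : grp C K → ℂ} (hχ : IsChi N χ) : χ 1 = 1 :=
  hχ.lev 1 (one_mem _)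

/-- the value on the horocycle -/
theorem wf_hor (hC : SimplyLaced C) {N : Polynomial K} {χ : grp C K → ℂ} (hχ : IsChi N χ)
    {m : Fin r → ℤ} (hm : GoodU hC χ m) {u : grp C K} (hu : u ∈ Ug C K) :
    wf hC χ m (u • tp hC K m) = χ u := by
  have h : ∃ v ∈ Ug C K, u • tp hC K m = v • tp hC K m := ⟨u, hu, rfl⟩
  have h1 := h.choose_spec
  unfold wf
  rw [dif_pos h]
  have h2 : (u⁻¹ * h.choose) • tp hC K m = tp hC K m := by
    rw [mul_smul, ← h1.2, inv_smul_smul]
  have h5 : u⁻¹ * h.choose ∈ Ug C K := mul_mem (inv_mem hu) h1.1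
  have h3 := hm _ h5 h2
  have h4 := hχ.mul u hu (u⁻¹ * h.choose) h5
  rw [mul_inv_cancel_left, h3, mul_one] at h4
  exact h4

theorem wf_not (hC : SimplyLaced C) {χ : grp C K → ℂ} {m : Fin r → ℤ} {x : XX C K}
    (h : x ∉ Hor hC K m) : wf hC χ m x = 0 := by
  unfold wf
  rw [dif_neg]
  exact h

/-- the function `wf` transforms by `χ` -/
theorem wf_smul (hC : SimplyLaced C) {N : Polynomial K} {χ : grp C K → ℂ} (hχ : IsChi N χ)
    {m : Fin r → ℤ} (hm : GoodU hC χ m) {u : grp C K} (hu : u ∈ Ug C K) (x : XX C K) :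
    wf hC χ m (u • x) = χ u * wf hC χ m x := by
  by_cases hx : x ∈ Hor hC K m
  · obtain ⟨v, hv, rfl⟩ := hx
    rw [← mul_smul, wf_hor hC hχ hm (mul_mem hu hv), wf_hor hC hχ hm hv, hχ.mul u hu v hv]
  · rw [wf_not hC hx, mul_zero, wf_not hC]
    rintro ⟨v, hv, h⟩
    exact hx ⟨u⁻¹ * v, mul_mem (inv_mem hu) hv, by rw [mul_smul, ← h, inv_smul_smul]⟩

/-- the operator preserves the equivariance -/
theorem TT_smul (hC : SimplyLaced C) {N : Polynomial K} {χ : grp C K → ℂ} (hχ : IsChi N χ)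
    {m : Fin r → ℤ} (hm : GoodU hC χ m) {k : XX C K → XX C K → ℂ} (hk : IsKer k)
    {u : grp C K} (hu : u ∈ Ug C K) (x : XX C K) :
    TT k (wf hC χ m) (u • x) = χ u * TT k (wf hC χ m) x := by
  show ∑ᶠ y, k (u • x) y * wf hC χ m y = χ u * ∑ᶠ y, k x y * wf hC χ m y
  rw [mul_finsum, ← finsum_comp_equiv (MulAction.toPerm u)]
  refine finsum_congr fun y => ?_
  rw [MulAction.toPerm_apply, hk.inv, wf_smul hC hχ hm hu]
  ring

theorem wa_TT (hC : SimplyLaced C) (χ : grp C K → ℂ) (k : XX C K → XX C K → ℂ)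
    (n m : Fin r → ℤ) : wa hC χ k n m = TT k (wf hC χ m) (tp hC K n) := rfl

theorem TT_val (hC : SimplyLaced C) {N : Polynomial K} {χ : grp C K → ℂ} (hχ : IsChi N χ)
    {m : Fin r → ℤ} (hm : GoodU hC χ m) {k : XX C K → XX C K → ℂ} (hk : IsKer k)
    {u : grp C K} (hu : u ∈ Ug C K) (n : Fin r → ℤ) :
    TT k (wf hC χ m) (u • tp hC K n) = wa hC χ k n m * χ u := by
  rw [TT_smul hC hχ hm hk hu, ← wa_TT, mul_comm]

theorem wa_bad (hC : SimplyLaced C) {N : Polynomial K} {χ : grp C K → ℂ} (hχ : IsChi N χ)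
    {m : Fin r → ℤ} (hm : GoodU hC χ m) {k : XX C K → XX C K → ℂ} (hk : IsKer k)
    {n : Fin r → ℤ} (hn : ¬ GoodU hC χ n) : wa hC χ k n m = 0 := by
  unfold GoodU at hn
  push Not at hn
  obtain ⟨u, hu, h1, h2⟩ := hn
  have h3 := TT_val hC hχ hm hk hu n
  rw [h1, ← wa_TT] at h3
  have h4 : wa hC χ k n m * (χ u - 1) = 0 := by
    rw [mul_sub, mul_one, ← h3, sub_self]
  rcases mul_eq_zero.1 h4 with h | h
  · exact h
  · exact absurd (sub_eq_zero.1 h) h2

theorem hor_unique (hC : SimplyLaced C) {x : XX C K} {n n' : Fin r → ℤ} (h : x ∈ Hor hC K n)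
    (h' : x ∈ Hor hC K n') : n = n' := by
  obtain ⟨u, hu, rfl⟩ := h
  obtain ⟨v, hv, h2⟩ := h'
  refine (hHor r C hC K).1 (v⁻¹ * u) (mul_mem (inv_mem hv) hu) n n' ?_
  rw [mul_smul, h2, inv_smul_smul]

theorem wf_ne (hC : SimplyLaced C) {χ : grp C K → ℂ} {m : Fin r → ℤ} {y : XX C K}
    (h : wf hC χ m y ≠ 0) : y ∈ Hor hC K m := by
  by_contra hy
  exact h (wf_not hC hy)

end

section
variable {r : ℕ} {C : Matrix (Fin r) (Fin r) ℤ} {K : Type} [Field K] [Finite K]

theorem wa_fin (hC : SimplyLaced C) (χ : grp C K → ℂ) {k : XX C K → XX C K → ℂ} (hk : IsKer k)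
    (m : Fin r → ℤ) : {n | wa hC χ k n m ≠ 0}.Finite := by
  classical
  have hI : ∀ x : XX C K, ∃ n : Fin r → ℤ, x ∈ Hor hC K n := by
    intro x
    obtain ⟨u, hu, l, h⟩ := iwa hC x
    exact ⟨l, u, hu, h⟩
  choose idx hidx using hI
  refine ((((hKer r C hC K).1 k hk (tp hC K m)).image idx)).subset ?_
  intro n hn
  have h1 : ∑ᶠ y, k (tp hC K n) y * wf hC χ m y ≠ 0 := hn
  obtain ⟨y, hy⟩ : ∃ y, k (tp hC K n) y * wf hC χ m y ≠ 0 := by
    by_contra hne
    push Not at hne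
    exact h1 (by simp [hne])
  obtain ⟨u, hu, rfl⟩ := wf_ne hC (right_ne_zero_of_mul hy)
  have h2 := left_ne_zero_of_mul hy
  refine ⟨u⁻¹ • tp hC K n, ?_, ?_⟩
  · show k (u⁻¹ • tp hC K n) (tp hC K m) ≠ 0
    rw [← hk.inv u, smul_inv_smul]
    exact h2
  · exact hor_unique hC (hidx _) ⟨u⁻¹, inv_mem hu, rfl⟩

open Classical in
/-- `T_k wf_m` is a combination of the `wf_n` -/
theorem TT_eq (hC : SimplyLaced C) {N : Polynomial K} {χ : grp C K → ℂ} (hχ : IsChi N χ)
    {m : Fin r → ℤ} (hm : GoodU hC χ m) {k : XX C K → XX C K → ℂ} (hk : IsKer k)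
    (z : XX C K) :
    TT k (wf hC χ m) z = ∑ n ∈ (wa_fin hC χ hk m).toFinset,
      (if GoodU hC χ n then wa hC χ k n m else 0) * wf hC χ n z := by
  obtain ⟨u, hu, l, rfl⟩ := iwa hC z
  rw [TT_val hC hχ hm hk hu]
  rw [Finset.sum_eq_single l]
  · by_cases hl : GoodU hC χ l
    · rw [if_pos hl, wf_hor hC hχ hl hu]
    · rw [if_neg hl, wa_bad hC hχ hm hk hl, zero_mul, zero_mul]
  · intro n _ hn
    rw [wf_not hC (x := u • tp hC K l), mul_zero]
    intro h
    exact hn (hor_unique hC h ⟨u, hu, rfl⟩)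
  · intro hl
    have h1 : wa hC χ k l m = 0 := by
      by_contra h
      exact hl ((Set.Finite.mem_toFinset _).2 h)
    rw [h1]
    simp

open Classical in
theorem wa_kmul (hC : SimplyLaced C) {N : Polynomial K} {χ : grp C K → ℂ} (hχ : IsChi N χ)
    {m : Fin r → ℤ} (hm : GoodU hC χ m) {k k' : XX C K → XX C K → ℂ} (hk : IsKer k)
    (hk' : IsKer k') (m' : Fin r → ℤ) :
    wa hC χ (kmul k' k) m' m = ∑ n ∈ (wa_fin hC χ hk m).toFinset,
      (if GoodU hC χ n then wa hC χ k n m else 0) * wa hC χ k' m' n := by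
  rw [wa_TT, ← TT_comp hk' hk]
  set S : Finset (XX C K) := (hk'.fin (tp hC K m')).toFinset with hS
  have hSm : ∀ y, k' (tp hC K m') y ≠ 0 → y ∈ S := fun y hy => (Set.Finite.mem_toFinset _).2 hy
  have h1 : ∀ f : XX C K → ℂ, TT k' f (tp hC K m') = ∑ z ∈ S, k' (tp hC K m') z * f z := by
    intro f
    show ∑ᶠ y, k' (tp hC K m') y * f y = _
    apply finsum_eq_sum_of_support_subset
    intro y hy
    exact hSm y (left_ne_zero_of_mul hy)
  rw [h1]
  simp only [wa_TT hC χ k' m', h1]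
  rw [Finset.sum_congr rfl fun z _ => by rw [TT_eq hC hχ hm hk z]]
  simp only [Finset.mul_sum]
  rw [Finset.sum_comm]
  refine Finset.sum_congr rfl fun n _ => Finset.sum_congr rfl fun z _ => ?_
  ring

end

section
variable {r : ℕ} {C : Matrix (Fin r) (Fin r) ℤ} {K : Type} [Field K]

theorem kst_kmul {k k' : XX C K → XX C K → ℂ} (hk : IsKer k) :
    kst (kmul k k') = kmul (kst k') (kst k) := by
  funext x y
  have hf : (Function.support fun z => k y z * k' z x).Finite := by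
    refine (hk.fin y).subset fun z hz => ?_
    exact left_ne_zero_of_mul hz
  show (starRingEnd ℂ) (∑ᶠ z, k y z * k' z x) = ∑ᶠ z, (starRingEnd ℂ) (k' z x) * (starRingEnd ℂ) (k y z)
  have h1 := AddMonoidHom.map_finsum (starRingEnd ℂ).toAddMonoidHom hf
  have h2 : (starRingEnd ℂ) (∑ᶠ z, k y z * k' z x) =
      ∑ᶠ z, (starRingEnd ℂ) (k y z * k' z x) := h1
  rw [h2]
  refine finsum_congr fun z => ?_
  rw [map_mul, mul_comm]

theorem kst_add (k k' : XX C K → XX C K → ℂ) : kst (k + k') = kst k + kst k' := by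
  funext x y
  show (starRingEnd ℂ) (k y x + k' y x) = (starRingEnd ℂ) (k y x) + (starRingEnd ℂ) (k' y x)
  rw [map_add]

theorem kst_smul (a : ℂ) (k : XX C K → XX C K → ℂ) :
    kst (a • k) = (starRingEnd ℂ) a • kst k := by
  funext x y
  show (starRingEnd ℂ) (a * k y x) = (starRingEnd ℂ) a * (starRingEnd ℂ) (k y x)
  rw [map_mul]

theorem kst_kone : kst (kone : XX C K → XX C K → ℂ) = kone := by
  classical
  funext x y
  unfold kst kone
  by_cases h : x = y
  · subst h
    simp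
  · rw [if_neg h, if_neg (Ne.symm h), map_zero]

theorem wa_add (hC : SimplyLaced C) (χ : grp C K → ℂ) {k k' : XX C K → XX C K → ℂ}
    (hk : IsKer k) (hk' : IsKer k') (m m' : Fin r → ℤ) :
    wa hC χ (k + k') m m' = wa hC χ k m m' + wa hC χ k' m m' := by
  unfold wa
  rw [← finsum_add_distrib]
  · refine finsum_congr fun y => ?_
    show (k (tp hC K m) y + k' (tp hC K m) y) * wf hC χ m' y = _
    ring
  · exact (hk.fin _).subset fun y hy => left_ne_zero_of_mul hy
  · exact (hk'.fin _).subset fun y hy => left_ne_zero_of_mul hy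

theorem wa_smul (hC : SimplyLaced C) (χ : grp C K → ℂ) (k : XX C K → XX C K → ℂ) (a : ℂ)
    (m m' : Fin r → ℤ) : wa hC χ (a • k) m m' = a * wa hC χ k m m' := by
  unfold wa
  rw [mul_finsum]
  refine finsum_congr fun y => ?_
  show (a * k (tp hC K m) y) * wf hC χ m' y = _
  ring

theorem wa_kone (hC : SimplyLaced C) (χ : grp C K → ℂ) (m m' : Fin r → ℤ) :
    wa hC χ (kone : XX C K → XX C K → ℂ) m m' = wf hC χ m' (tp hC K m) := by
  classical
  unfold wa kone
  rw [finsum_eq_single _ (tp hC K m)]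
  · simp
  · intro y hy
    rw [if_neg (Ne.symm hy), zero_mul]

end

theorem cmp : CmpStmt := by
  classical
  intro r C hC K _ _ N χ hχ k k' hk hk' m hm
  have hq : (Nat.card K : ℂ) ≠ 0 := by
    have : 0 < Nat.card K := Nat.card_pos
    exact_mod_cast this.ne'
  have hks : IsKer (kst k) := (hKer r C hC K).2.2.1 k hk
  have hks' : IsKer (kst k') := (hKer r C hC K).2.2.1 k' hk'
  have hb : ∀ (a : XX C K → XX C K → ℂ) (n n' : Fin r → ℤ), bt hC χ a n n' =
      if GoodU hC χ n' then (Nat.card K : ℂ) ^ (hv n - hv n') *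
        (starRingEnd ℂ) (wa hC χ (kst a) n' n) else 0 := by
    intro a n n'
    unfold bt
    split_ifs <;> rfl
  have hsup : ∀ n, bt hC χ k m n ≠ 0 → wa hC χ (kst k) n m ≠ 0 := by
    intro n hn h0
    apply hn
    rw [hb, h0]
    simp
  refine ⟨(wa_fin hC χ hks m).subset hsup, fun m' => ⟨?_, ?_, ?_, ?_⟩⟩
  · rw [finsum_eq_sum_of_support_subset (s := (wa_fin hC χ hks m).toFinset)]
    · by_cases hm' : GoodU hC χ m'
      · rw [hb, if_pos hm', kst_kmul hk, wa_kmul hC hχ hm hks hks' m', map_sum, Finset.mul_sum]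
        refine Finset.sum_congr rfl fun n _ => ?_
        rw [hb k, hb k', if_pos hm', map_mul]
        by_cases hn : GoodU hC χ n
        · rw [if_pos hn, if_pos hn]
          have e : hv m - hv m' = (hv m - hv n) + (hv n - hv m') := by ring
          rw [e, zpow_add₀ hq]
          ring
        · rw [if_neg hn, if_neg hn, map_zero]
          ring
      · rw [hb, if_neg hm']
        symm
        refine Finset.sum_eq_zero fun n _ => ?_
        rw [hb k', if_neg hm', mul_zero]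
    · intro n hn
      rw [Set.Finite.coe_toFinset]
      exact hsup n (left_ne_zero_of_mul hn)
  · rw [hb, hb, hb]
    by_cases hm' : GoodU hC χ m'
    · rw [if_pos hm', if_pos hm', if_pos hm', kst_add, wa_add hC χ hks hks', map_add, mul_add]
    · rw [if_neg hm', if_neg hm', if_neg hm', add_zero]
  · intro a
    rw [hb, hb]
    by_cases hm' : GoodU hC χ m'
    · rw [if_pos hm', if_pos hm', kst_smul, wa_smul, map_mul, Complex.conj_conj]
      ring
    · rw [if_neg hm', if_neg hm', mul_zero]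
  · rw [hb, kst_kone, wa_kone]
    by_cases h : m = m'
    · subst h
      rw [if_pos hm, if_pos rfl, sub_self, zpow_zero, one_mul]
      have h1 := wf_hor hC hχ hm (one_mem (Ug C K))
      rw [one_smul, chi_one hχ] at h1
      rw [h1, map_one]
    · rw [if_neg h]
      have h1 : wf hC χ m (tp hC K m') = 0 := by
        apply wf_not hC
        intro h2
        exact h (hor_unique hC h2 ⟨1, one_mem _, (one_smul _ _).symm⟩)
      rw [h1, map_zero, mul_zero]
      split_ifs <;> rfl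

end Pool.Agent.WHC.H62
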